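import Pool.Agent.Lib.MP_acdf0e_co.Defs

/-!
# Tools: degree sequences, monochromatic cycles, blow-ups
-/

namespace Pool.Agent.MP_acdf0e_co

open Finset

/-- If `ρ` ranks the vertices and every vertex either has large degree or has degree larger than
`(x + β) n` plus the number of vertices of at most the same rank, then the degree-sequence
condition holds. -/
theorem posa_of_rank {V : Type} [Fintype V] (G : SimpleGraph V) (x y β : ℝ) (ρ : V → ℕ)
    (h : ∀ v, (x + y + β) * (Fintype.card V : ℝ) < (deg G v : ℝ) ∨
      ((univ.filter (fun u => ρ u ≤ ρ v)).card : ℝ) + (x + β) * (Fintype.card V : ℝ)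
        < (deg G v : ℝ)) : PosaCondition G x y β := by
  classical
  set n := Fintype.card V with hn
  let e₀ : Fin n ≃ V := (Fintype.equivFin V).symm
  let σ := Tuple.sort (fun i => deg G (e₀ i))
  have hmono : Monotone (fun i => deg G ((σ.trans e₀) i)) := by
    have := Tuple.monotone_sort (fun i => deg G (e₀ i))
    exact this
  refine ⟨σ.trans e₀, hmono, ?_⟩
  intro i hi
  set e := σ.trans e₀ with he
  -- among the first `i + 1` vertices choose one of maximal rank
  obtain ⟨j, hj, hjmax⟩ := (Finset.univ.filter (fun j : Fin n => j ≤ i)).exists_max_image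
    (fun j => ρ (e j)) ⟨i, by simp⟩
  have hji : j ≤ i := (Finset.mem_filter.1 hj).2
  have hdeg : (deg G (e j) : ℝ) ≤ (deg G (e i) : ℝ) := by exact_mod_cast hmono hji
  have hcount : ((i : ℕ) : ℝ) + 1 ≤ ((univ.filter (fun u => ρ u ≤ ρ (e j))).card : ℝ) := by
    have h1 : ((Finset.univ.filter (fun j : Fin n => j ≤ i)).image e).card = (i : ℕ) + 1 := by
      rw [Finset.card_image_of_injective _ e.injective]
      have : Finset.univ.filter (fun j : Fin n => j ≤ i) = Finset.Iic i := by
        ext k; simp
      rw [this, Fin.card_Iic]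
    have h2 : ((Finset.univ.filter (fun j : Fin n => j ≤ i)).image e) ⊆
        univ.filter (fun u => ρ u ≤ ρ (e j)) := by
      intro u hu
      obtain ⟨k, hk, rfl⟩ := Finset.mem_image.1 hu
      exact Finset.mem_filter.2 ⟨Finset.mem_univ _, hjmax k hk⟩
    have h3 := Finset.card_le_card h2
    rw [h1] at h3
    exact_mod_cast h3
  rcases h (e j) with h1 | h1
  · have : (x + y + β) * (n : ℝ) = y * n + (x + β) * n := by ring
    linarith
  · linarith

/-- Pósa-type condition is monotone in `x`. -/
theorem PosaCondition.mono {V : Type} [Fintype V] {G : SimpleGraph V} {x x' y y' β : ℝ}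
    (hx : x ≤ x') (hy : y ≤ y') (h : PosaCondition G x' y' β) : PosaCondition G x y β := by
  obtain ⟨e, h1, h2⟩ := h
  refine ⟨e, h1, fun i hi => ?_⟩
  have hn : (0 : ℝ) ≤ (Fintype.card V : ℝ) := by positivity
  have h3 : y * (Fintype.card V : ℝ) ≤ y' * (Fintype.card V : ℝ) :=
    mul_le_mul_of_nonneg_right hy hn
  have h4 : (x + β) * (Fintype.card V : ℝ) ≤ (x' + β) * (Fintype.card V : ℝ) :=
    mul_le_mul_of_nonneg_right (by linarith) hn
  have := h2 i (by linarith)
  linarith

theorem P.mono {x x' y y' : ℝ} (hx : x ≤ x') (hy : y ≤ y') (h : P x y) : P x' y' := by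
  intro β hβ
  obtain ⟨n₀, hn₀⟩ := h β hβ
  refine ⟨n₀, fun V _ G c hV hG => hn₀ V G c hV (hG.mono hx hy)⟩

/-- In a cycle, at most half of the vertices lie in a set without internal edges. -/
theorem cycle_indep {V : Type} [DecidableEq V] {H : SimpleGraph V} {v : V} (p : H.Walk v v)
    (hp : p.IsCycle) (S X : Finset V) (hS : ∀ w, w ∈ S ↔ w ∈ p.support)
    (hX : ∀ a b, H.Adj a b → a ∈ X → b ∉ X) : (S ∩ X).card ≤ (S \ X).card := by
  have hne : p.support ≠ [] := SimpleGraph.Walk.support_ne_nil p
  have hnodup : p.support.tail.Nodup := hp.support_nodup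
  have hsup : p.support = v :: p.support.tail := (SimpleGraph.Walk.cons_tail_support p).symm
  have hmem : ∀ w, w ∈ p.support.tail ↔ w ∈ S := by
    intro w
    rw [hS w]
    constructor
    · exact fun h => List.mem_of_mem_tail h
    · intro h
      rw [hsup] at h
      rcases List.mem_cons.1 h with rfl | h
      · exact SimpleGraph.Walk.end_mem_tail_support (fun hnil => hp.ne_nil (by
          cases p with
          | nil => rfl
          | cons _ _ => simp at hnil))
      · exact h
  -- counting through the list of darts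
  have hc1 : (S ∩ X).card = p.support.tail.countP (fun w => decide (w ∈ X)) := by
    rw [List.countP_eq_length_filter]
    have : S ∩ X = (p.support.tail.filter (fun w => decide (w ∈ X))).toFinset := by
      ext w
      simp only [Finset.mem_inter, List.mem_toFinset, List.mem_filter, hmem, decide_eq_true_eq]
    rw [this, List.toFinset_card_of_nodup (hnodup.filter _)]
  have hc2 : (S \ X).card = p.support.tail.countP (fun w => decide (w ∉ X)) := by
    rw [List.countP_eq_length_filter]
    have : S \ X = (p.support.tail.filter (fun w => decide (w ∉ X))).toFinset := by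
      ext w
      simp only [Finset.mem_sdiff, List.mem_toFinset, List.mem_filter, hmem, decide_eq_true_eq]
    rw [this, List.toFinset_card_of_nodup (hnodup.filter _)]
  have hlast : p.support.dropLast ++ [v] = p.support := by
    have h1 := List.dropLast_append_getLast hne
    rwa [SimpleGraph.Walk.getLast_support] at h1
  have hc3 : p.support.tail.countP (fun w => decide (w ∈ X)) =
      p.support.dropLast.countP (fun w => decide (w ∈ X)) := by
    have h1 : p.support.countP (fun w => decide (w ∈ X)) =
        p.support.tail.countP (fun w => decide (w ∈ X)) + [v].countP (fun w => decide (w ∈ X)) := by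
      conv_lhs => rw [hsup]
      rw [show v :: p.support.tail = [v] ++ p.support.tail from rfl, List.countP_append]
      omega
    have h2 : p.support.countP (fun w => decide (w ∈ X)) =
        p.support.dropLast.countP (fun w => decide (w ∈ X)) +
          [v].countP (fun w => decide (w ∈ X)) := by
      conv_lhs => rw [← hlast]
      rw [List.countP_append]
    omega
  rw [hc1, hc2, hc3, ← SimpleGraph.Walk.map_fst_darts, ← SimpleGraph.Walk.map_snd_darts,
    List.countP_map, List.countP_map]
  apply List.countP_mono_left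
  intro d _ hd
  simp only [Function.comp_apply, decide_eq_true_eq] at hd ⊢
  exact hX _ _ d.adj hd

/-- A function constant along edges is constant on a closed walk. -/
theorem walk_const {V : Type} {H : SimpleGraph V} {α : Type} (f : V → α)
    (hf : ∀ a b, H.Adj a b → f a = f b) {u v : V} (p : H.Walk u v) :
    ∀ w ∈ p.support, f w = f u := by
  induction p with
  | nil => intro w hw; rw [SimpleGraph.Walk.support_nil, List.mem_singleton] at hw; rw [hw]
  | @cons a b c hab q ih =>
    intro w hw
    rw [SimpleGraph.Walk.support_cons, List.mem_cons] at hw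
    rcases hw with rfl | hw
    · rfl
    · rw [ih w hw, hf a b hab]

/-- Every vertex of a cycle has a neighbour. -/
theorem cycle_nbr {V : Type} {H : SimpleGraph V} {v : V} (p : H.Walk v v) (hp : p.IsCycle)
    (w : V) (hw : w ∈ p.support) : ∃ w', H.Adj w w' := by
  by_contra hcon
  push Not at hcon
  classical
  have := cycle_indep p hp p.support.toFinset p.support.toFinset (fun w => by simp)
  -- use the walk itself
  have key : ∀ (a b : V) (q : H.Walk a b), w ∈ q.support → q.length ≠ 0 → False := by
    intro a b q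
    induction q with
    | nil => intro _ h; simp at h
    | @cons a b c hab q ih =>
      intro h _
      rw [SimpleGraph.Walk.support_cons, List.mem_cons] at h
      rcases h with rfl | h
      · exact hcon b hab
      · by_cases hq : q.length = 0
        · cases q with
          | nil =>
            rw [SimpleGraph.Walk.support_nil, List.mem_singleton] at h
            subst h
            exact hcon a hab.symm
          | cons _ _ => simp at hq
        · exact ih h hq
  have hlen := hp.three_le_length
  exact key v v p hw (by omega)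

/-- **Obstruction lemma.** -/
theorem not_covered {V : Type} [Fintype V] [DecidableEq V] (G : SimpleGraph V)
    (c : Sym2 V → Bool) (X Y : Fin 4 → Finset V) (w : ℕ)
    (hXY : ∀ i, (Y i).card + w ≤ (X i).card)
    (hS : ∀ S, IsMonoCycle G c S → ∃ j : Fin 4, ∀ i, i ≠ j → (S ∩ X i).card ≤ (S ∩ Y i).card + 2)
    (S₁ S₂ S₃ : Finset V) (h₁ : IsMonoCycle G c S₁) (h₂ : IsMonoCycle G c S₂)
    (h₃ : IsMonoCycle G c S₃) (d₁₂ : Disjoint S₁ S₂) (d₁₃ : Disjoint S₁ S₃)
    (d₂₃ : Disjoint S₂ S₃) : S₁.card + S₂.card + S₃.card + w ≤ Fintype.card V + 6 := by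
  obtain ⟨j₁, hj₁⟩ := hS S₁ h₁
  obtain ⟨j₂, hj₂⟩ := hS S₂ h₂
  obtain ⟨j₃, hj₃⟩ := hS S₃ h₃
  obtain ⟨i, hi₁, hi₂, hi₃⟩ : ∃ i : Fin 4, i ≠ j₁ ∧ i ≠ j₂ ∧ i ≠ j₃ := by
    clear hj₁ hj₂ hj₃
    revert j₁ j₂ j₃
    decide
  have a₁ := hj₁ i hi₁
  have a₂ := hj₂ i hi₂
  have a₃ := hj₃ i hi₃
  have dU : Disjoint (S₁ ∪ S₂) S₃ := Finset.disjoint_union_left.2 ⟨d₁₃, d₂₃⟩
  have cardU : (S₁ ∪ S₂ ∪ S₃).card = S₁.card + S₂.card + S₃.card := by
    rw [Finset.card_union_of_disjoint dU, Finset.card_union_of_disjoint d₁₂]
  have inter : ∀ T : Finset V, ((S₁ ∪ S₂ ∪ S₃) ∩ T).card =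
      (S₁ ∩ T).card + (S₂ ∩ T).card + (S₃ ∩ T).card := by
    intro T
    rw [Finset.union_inter_distrib_right, Finset.union_inter_distrib_right,
      Finset.card_union_of_disjoint, Finset.card_union_of_disjoint]
    · exact d₁₂.mono Finset.inter_subset_left Finset.inter_subset_left
    · rw [← Finset.union_inter_distrib_right]
      exact dU.mono Finset.inter_subset_left Finset.inter_subset_left
  have hX := inter (X i)
  have hY := inter (Y i)
  have hYle : ((S₁ ∪ S₂ ∪ S₃) ∩ Y i).card ≤ (Y i).card :=
    Finset.card_le_card Finset.inter_subset_right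
  -- uncovered part of `X i`
  have hXsplit : ((S₁ ∪ S₂ ∪ S₃) ∩ X i).card + (X i \ (S₁ ∪ S₂ ∪ S₃)).card = (X i).card := by
    rw [Finset.inter_comm, Finset.card_inter_add_card_sdiff]
  have hsub : (S₁ ∪ S₂ ∪ S₃).card + (X i \ (S₁ ∪ S₂ ∪ S₃)).card ≤ Fintype.card V := by
    rw [← Finset.card_union_of_disjoint Finset.disjoint_sdiff]
    exact Finset.card_le_univ _
  have := hXY i
  omega

/-! ### Blow-ups -/

section blow

variable {K : ℕ} (M : Fin K → Fin K → Option Bool) (hM : ∀ k l, M k l = M l k) (s : Fin K → ℕ)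

/-- the vertex set of the blow-up -/
abbrev BV (s : Fin K → ℕ) : Type := Σ k : Fin K, Fin (s k)

/-- the blow-up graph -/
def blowG : SimpleGraph (BV s) where
  Adj u v := u ≠ v ∧ M u.1 v.1 ≠ none
  symm := ⟨fun u v h => ⟨h.1.symm, by rw [hM]; exact h.2⟩⟩
  loopless := ⟨fun u h => h.1 rfl⟩

/-- the colouring of the blow-up: colour `true` iff the entry of `M` is `some true` -/
def blowC : Sym2 (BV s) → Bool :=
  Sym2.lift ⟨fun u v => decide (M u.1 v.1 = some true), fun u v => by
    show decide (M u.1 v.1 = some true) = decide (M v.1 u.1 = some true)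
    rw [hM]⟩

theorem blow_class (b : Bool) (u v : BV s)
    (h : (colourClass (blowG M hM s) (blowC M hM s) b).Adj u v) :
    u ≠ v ∧ M u.1 v.1 = some b := by
  obtain ⟨⟨h1, h2⟩, h3⟩ := h
  refine ⟨h1, ?_⟩
  have h4 : decide (M u.1 v.1 = some true) = b := h3
  cases hm : M u.1 v.1 with
  | none => exact absurd hm h2
  | some b' =>
    rw [hm] at h4
    cases b' <;> cases b <;> simp_all

/-- the class `k` as a set of vertices -/
def cls (k : Fin K) : Finset (BV s) := univ.filter (fun v => v.1 = k)

theorem mem_cls (k : Fin K) (v : BV s) : v ∈ cls s k ↔ v.1 = k := by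
  simp [cls]

theorem card_cls (k : Fin K) : (cls s k).card = s k := by
  unfold cls
  rw [Finset.card_filter, Fintype.sum_sigma]
  rw [Finset.sum_eq_single k]
  · simp
  · intro l _ hl
    simp [hl]
  · simp

theorem card_BV : Fintype.card (BV s) = ∑ k, s k := by
  simp [BV]

theorem card_filter_classes (q : Fin K → Prop) [DecidablePred q] :
    ((univ : Finset (BV s)).filter (fun v => q v.1)).card = ∑ k, if q k then s k else 0 := by
  rw [Finset.card_filter, Fintype.sum_sigma]
  refine Finset.sum_congr rfl fun k _ => ?_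
  split_ifs with h <;> simp

theorem le_deg (v : BV s) :
    (∑ l, if M v.1 l ≠ none then s l else 0) ≤ deg (blowG M hM s) v + 1 := by
  classical
  rw [← card_filter_classes s (fun l => M v.1 l ≠ none)]
  unfold deg
  have h1 : ((univ.filter (fun u : BV s => M v.1 u.1 ≠ none)) : Finset (BV s)) ⊆
      insert v ((blowG M hM s).neighborSet v).toFinset := by
    intro u hu
    rw [Finset.mem_insert, Set.mem_toFinset]
    by_cases huv : u = v
    · exact Or.inl huv
    · exact Or.inr ⟨fun h => huv h.symm, (Finset.mem_filter.1 hu).2⟩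
  calc _ ≤ (insert v ((blowG M hM s).neighborSet v).toFinset).card := Finset.card_le_card h1
    _ ≤ ((blowG M hM s).neighborSet v).toFinset.card + 1 := Finset.card_insert_le _ _
    _ = _ := by rw [Set.ncard_eq_toFinset_card']

/-- Degree condition for blow-ups. -/
theorem blow_posa (x y β : ℝ) (ρ : Fin K → ℕ)
    (h : ∀ k, 0 < s k → (x + y + β) * ((∑ l, s l : ℕ) : ℝ) + 1 <
        ((∑ l, if M k l ≠ none then s l else 0 : ℕ) : ℝ) ∨
      ((∑ l, if ρ l ≤ ρ k then s l else 0 : ℕ) : ℝ) + (x + β) * ((∑ l, s l : ℕ) : ℝ) + 1 <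
        ((∑ l, if M k l ≠ none then s l else 0 : ℕ) : ℝ)) :
    PosaCondition (blowG M hM s) x y β := by
  apply posa_of_rank _ x y β (fun v => ρ v.1)
  intro v
  have hpos : 0 < s v.1 := lt_of_le_of_lt (Nat.zero_le _) v.2.2
  have hd : ((∑ l, if M v.1 l ≠ none then s l else 0 : ℕ) : ℝ) ≤
      (deg (blowG M hM s) v : ℝ) + 1 := by exact_mod_cast le_deg M hM s v
  rw [card_BV, card_filter_classes s (fun l => ρ l ≤ ρ v.1)]
  rcases h v.1 hpos with h1 | h1
  · left; linarith
  · right; linarith

end blow

end Pool.Agent.MP_acdf0e_co
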