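import Mathlib

/-!
# Definitions for MP_acdf0e_co (Posa-type degree condition, three monochromatic cycles)
-/

namespace Pool.Agent.MP_acdf0e_co

/-- The degree of a vertex: the number of its neighbours. -/
noncomputable def deg {V : Type} (G : SimpleGraph V) (v : V) : ℕ := (G.neighborSet v).ncard

/-- The degree-sequence condition of `P(x, y)`: if `v₁, …, v_n` are the vertices of `G` ordered by
nondecreasing degree, with degrees `d₁ ≤ d₂ ≤ … ≤ d_n`, then `d_i > i + (x + β) n` for all integers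
`1 ≤ i < y n`.  (The vertex `e i` for `i = 0, …, n - 1` is `v_{i+1}`.) -/
def PosaCondition {V : Type} [Fintype V] (G : SimpleGraph V) (x y β : ℝ) : Prop :=
  ∃ e : Fin (Fintype.card V) ≃ V, Monotone (fun i => deg G (e i)) ∧
    ∀ i : Fin (Fintype.card V), ((i : ℕ) : ℝ) + 1 < y * (Fintype.card V : ℝ) →
      (((i : ℕ) : ℝ) + 1) + (x + β) * (Fintype.card V : ℝ) < (deg G (e i) : ℝ)

/-- The graph formed by the edges of `G` that have colour `b`. -/
def colourClass {V : Type} (G : SimpleGraph V) (c : Sym2 V → Bool) (b : Bool) :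
    SimpleGraph V where
  Adj u v := G.Adj u v ∧ c s(u, v) = b
  symm := ⟨fun u v h => ⟨h.1.symm, by rw [Sym2.eq_swap]; exact h.2⟩⟩
  loopless := ⟨fun u h => G.loopless.irrefl u h.1⟩

/-- `S` is the vertex set of a monochromatic cycle of the 2-edge-coloured graph `(G, c)`.  Single
vertices and single edges are allowed as degenerate cycles. -/
def IsMonoCycle {V : Type} (G : SimpleGraph V) (c : Sym2 V → Bool) (S : Finset V) : Prop :=
  (∃ v, ∀ w, w ∈ S ↔ w = v) ∨ (∃ u v, G.Adj u v ∧ ∀ w, w ∈ S ↔ w = u ∨ w = v) ∨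
    ∃ (b : Bool) (v : V) (p : (colourClass G c b).Walk v v), p.IsCycle ∧ ∀ w, w ∈ S ↔ w ∈ p.support

/-- The property `P(x, y)`: for every `β > 0` there is `n₀` such that every 2-edge-coloured graph
`G` on `n ≥ n₀` vertices whose degree sequence satisfies `d_i > i + (x + β) n` for all integers
`1 ≤ i < y n` contains three pairwise vertex-disjoint monochromatic cycles which together cover at
least `(1 - β) n` vertices. -/
def P (x y : ℝ) : Prop :=
  ∀ β : ℝ, 0 < β → ∃ n₀ : ℕ, ∀ (V : Type) [Fintype V] (G : SimpleGraph V) (c : Sym2 V → Bool),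
    n₀ ≤ Fintype.card V → PosaCondition G x y β →
      ∃ S₁ S₂ S₃ : Finset V, IsMonoCycle G c S₁ ∧ IsMonoCycle G c S₂ ∧ IsMonoCycle G c S₃ ∧
        Disjoint S₁ S₂ ∧ Disjoint S₁ S₃ ∧ Disjoint S₂ S₃ ∧
        (1 - β) * (Fintype.card V : ℝ) ≤ (S₁.card : ℝ) + (S₂.card : ℝ) + (S₃.card : ℝ)

end Pool.Agent.MP_acdf0e_co
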