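import Pool.Agent.Lib.MP_acdf0e_co.Basic

/-!
# First construction: `P(x, y)` fails for `y < 1 - 3x/2`
-/

namespace Pool.Agent.MP_acdf0e_co

open Finset

/-- The colour matrix of the first construction.  Classes `0, 1, 2, 3` are the four cells of a
`2 × 2` grid with red rows `{0, 1}`, `{2, 3}` and blue columns `{0, 2}`, `{1, 3}`; class `0` is
blue inside, class `3` is red inside; class `4` is joined in red to the row `{0, 1}` and class `5`
is joined in blue to the column `{1, 3}`. -/
def M1 : Fin 6 → Fin 6 → Option Bool :=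
  ![![some false, some true, some false, none, some true, none],
    ![some true, some true, none, some false, some true, some false],
    ![some false, none, some false, some true, none, none],
    ![none, some false, some true, some true, none, some false],
    ![some true, some true, none, none, none, none],
    ![none, some false, none, some false, none, none]]

theorem M1_symm : ∀ k l, M1 k l = M1 l k := by decide

/-- red components -/
def R1 : Fin 6 → Fin 3 := ![0, 0, 1, 1, 0, 2]

/-- blue components -/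
def B1 : Fin 6 → Fin 3 := ![0, 1, 0, 1, 2, 1]

theorem R1_edge : ∀ k l, M1 k l = some true → R1 k = R1 l := by decide

theorem B1_edge : ∀ k l, M1 k l = some false → B1 k = B1 l := by decide

theorem R1_zero : ∀ k, R1 k = 0 → k ≠ 0 → k = 1 ∨ k = 4 := by decide

theorem B1_one : ∀ k, B1 k = 1 → k ≠ 3 → k = 1 ∨ k = 5 := by decide

/-- sizes -/
def S1 (a m q z : ℕ) : Fin 6 → ℕ := ![a, m, q, a, z, z]

/-- the sets of the obstruction lemma -/
def X1 (s : Fin 6 → ℕ) : Fin 4 → Finset (BV s) := ![cls s 4, cls s 5, cls s 0, cls s 3]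

/-- the sets of the obstruction lemma -/
def Y1 (s : Fin 6 → ℕ) : Fin 4 → Finset (BV s) :=
  ![∅, ∅, cls s 1 ∪ cls s 4, cls s 1 ∪ cls s 5]

theorem inter_cls_empty {K : ℕ} {s : Fin K → ℕ} {α : Type} (f : Fin K → α) (S : Finset (BV s))
    (r : α) (h : ∀ w ∈ S, f w.1 = r) (k : Fin K) (hk : f k ≠ r) : (S ∩ cls s k).card = 0 := by
  rw [Finset.card_eq_zero, Finset.eq_empty_iff_forall_notMem]
  intro w hw
  rw [Finset.mem_inter, mem_cls] at hw
  exact hk (hw.2 ▸ h w hw.1)

theorem one_obstruction (s : Fin 6 → ℕ) (S : Finset (BV s))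
    (hS : IsMonoCycle (blowG M1 M1_symm s) (blowC M1 M1_symm s) S) :
    ∃ j : Fin 4, ∀ i, i ≠ j → (S ∩ X1 s i).card ≤ (S ∩ Y1 s i).card + 2 := by
  rcases hS with ⟨v, hv⟩ | ⟨u, v, _, huv⟩ | ⟨b, v, p, hp, hpS⟩
  · refine ⟨0, fun i _ => ?_⟩
    have h1 : (S ∩ X1 s i).card ≤ S.card := Finset.card_le_card Finset.inter_subset_left
    have h2 : S ⊆ {v} := fun w hw => by rw [Finset.mem_singleton]; exact (hv w).1 hw
    have h3 := Finset.card_le_card h2
    rw [Finset.card_singleton] at h3
    omega
  · refine ⟨0, fun i _ => ?_⟩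
    have h1 : (S ∩ X1 s i).card ≤ S.card := Finset.card_le_card Finset.inter_subset_left
    have h2 : S ⊆ {u, v} := fun w hw => by
      rw [Finset.mem_insert, Finset.mem_singleton]; exact (huv w).1 hw
    have h3 := Finset.card_le_card h2
    have h4 := Finset.card_le_two (a := u) (b := v)
    omega
  · cases b with
    | true =>
      -- a red cycle
      have hc : ∀ w ∈ S, R1 w.1 = R1 v.1 := by
        intro w hw
        exact walk_const (fun w : BV s => R1 w.1)
          (fun a b hab => R1_edge _ _ (blow_class M1 M1_symm s true a b hab).2) p w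
          ((hpS w).1 hw)
      have h012 : R1 v.1 = 0 ∨ R1 v.1 = 1 ∨ R1 v.1 = 2 := by
        generalize R1 v.1 = r
        revert r; decide
      rcases h012 with hr | hr | hr
      · refine ⟨0, fun i hi => ?_⟩
        rw [hr] at hc
        fin_cases i
        · exact absurd rfl hi
        · have := inter_cls_empty R1 S 0 hc 5 (by decide)
          show (S ∩ cls s 5).card ≤ _
          omega
        · have h1 := cycle_indep p hp S (cls s 0) hpS (fun a b hab ha hb => by
            have h2 := (blow_class M1 M1_symm s true a b hab).2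
            rw [mem_cls] at ha hb
            rw [ha, hb] at h2
            exact absurd h2 (by decide))
          have h2 : S \ cls s 0 ⊆ S ∩ (cls s 1 ∪ cls s 4) := by
            intro w hw
            rw [Finset.mem_sdiff, mem_cls] at hw
            rw [Finset.mem_inter, Finset.mem_union, mem_cls, mem_cls]
            exact ⟨hw.1, R1_zero _ (hc w hw.1) hw.2⟩
          have h3 := Finset.card_le_card h2
          show (S ∩ cls s 0).card ≤ (S ∩ (cls s 1 ∪ cls s 4)).card + 2
          omega
        · have := inter_cls_empty R1 S 0 hc 3 (by decide)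
          show (S ∩ cls s 3).card ≤ _
          omega
      · refine ⟨3, fun i hi => ?_⟩
        rw [hr] at hc
        fin_cases i
        · have := inter_cls_empty R1 S 1 hc 4 (by decide)
          show (S ∩ cls s 4).card ≤ _
          omega
        · have := inter_cls_empty R1 S 1 hc 5 (by decide)
          show (S ∩ cls s 5).card ≤ _
          omega
        · have := inter_cls_empty R1 S 1 hc 0 (by decide)
          show (S ∩ cls s 0).card ≤ _
          omega
        · exact absurd rfl hi
      · refine ⟨1, fun i hi => ?_⟩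
        rw [hr] at hc
        fin_cases i
        · have := inter_cls_empty R1 S 2 hc 4 (by decide)
          show (S ∩ cls s 4).card ≤ _
          omega
        · exact absurd rfl hi
        · have := inter_cls_empty R1 S 2 hc 0 (by decide)
          show (S ∩ cls s 0).card ≤ _
          omega
        · have := inter_cls_empty R1 S 2 hc 3 (by decide)
          show (S ∩ cls s 3).card ≤ _
          omega
    | false =>
      -- a blue cycle
      have hc : ∀ w ∈ S, B1 w.1 = B1 v.1 := by
        intro w hw
        exact walk_const (fun w : BV s => B1 w.1)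
          (fun a b hab => B1_edge _ _ (blow_class M1 M1_symm s false a b hab).2) p w
          ((hpS w).1 hw)
      have h012 : B1 v.1 = 0 ∨ B1 v.1 = 1 ∨ B1 v.1 = 2 := by
        generalize B1 v.1 = r
        revert r; decide
      rcases h012 with hr | hr | hr
      · refine ⟨2, fun i hi => ?_⟩
        rw [hr] at hc
        fin_cases i
        · have := inter_cls_empty B1 S 0 hc 4 (by decide)
          show (S ∩ cls s 4).card ≤ _
          omega
        · have := inter_cls_empty B1 S 0 hc 5 (by decide)
          show (S ∩ cls s 5).card ≤ _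
          omega
        · exact absurd rfl hi
        · have := inter_cls_empty B1 S 0 hc 3 (by decide)
          show (S ∩ cls s 3).card ≤ _
          omega
      · refine ⟨1, fun i hi => ?_⟩
        rw [hr] at hc
        fin_cases i
        · have := inter_cls_empty B1 S 1 hc 4 (by decide)
          show (S ∩ cls s 4).card ≤ _
          omega
        · exact absurd rfl hi
        · have := inter_cls_empty B1 S 1 hc 0 (by decide)
          show (S ∩ cls s 0).card ≤ _
          omega
        · have h1 := cycle_indep p hp S (cls s 3) hpS (fun a b hab ha hb => by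
            have h2 := (blow_class M1 M1_symm s false a b hab).2
            rw [mem_cls] at ha hb
            rw [ha, hb] at h2
            exact absurd h2 (by decide))
          have h2 : S \ cls s 3 ⊆ S ∩ (cls s 1 ∪ cls s 5) := by
            intro w hw
            rw [Finset.mem_sdiff, mem_cls] at hw
            rw [Finset.mem_inter, Finset.mem_union, mem_cls, mem_cls]
            exact ⟨hw.1, B1_one _ (hc w hw.1) hw.2⟩
          have h3 := Finset.card_le_card h2
          show (S ∩ cls s 3).card ≤ (S ∩ (cls s 1 ∪ cls s 5)).card + 2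
          omega
      · refine ⟨0, fun i hi => ?_⟩
        rw [hr] at hc
        fin_cases i
        · exact absurd rfl hi
        · have := inter_cls_empty B1 S 2 hc 5 (by decide)
          show (S ∩ cls s 5).card ≤ _
          omega
        · have := inter_cls_empty B1 S 2 hc 0 (by decide)
          show (S ∩ cls s 0).card ≤ _
          omega
        · have := inter_cls_empty B1 S 2 hc 3 (by decide)
          show (S ∩ cls s 3).card ≤ _
          omega

theorem one_not_covered (a m q z : ℕ) (ha : m + 2 * z ≤ a)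
    (S₁ S₂ S₃ : Finset (BV (S1 a m q z)))
    (h₁ : IsMonoCycle (blowG M1 M1_symm (S1 a m q z)) (blowC M1 M1_symm (S1 a m q z)) S₁)
    (h₂ : IsMonoCycle (blowG M1 M1_symm (S1 a m q z)) (blowC M1 M1_symm (S1 a m q z)) S₂)
    (h₃ : IsMonoCycle (blowG M1 M1_symm (S1 a m q z)) (blowC M1 M1_symm (S1 a m q z)) S₃)
    (d₁₂ : Disjoint S₁ S₂) (d₁₃ : Disjoint S₁ S₃) (d₂₃ : Disjoint S₂ S₃) :
    S₁.card + S₂.card + S₃.card + z ≤ Fintype.card (BV (S1 a m q z)) + 6 := by
  refine not_covered _ _ (X1 _) (Y1 _) z ?_ (one_obstruction _) S₁ S₂ S₃ h₁ h₂ h₃ d₁₂ d₁₃ d₂₃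
  intro i
  fin_cases i
  · show (∅ : Finset (BV (S1 a m q z))).card + z ≤ (cls (S1 a m q z) 4).card
    rw [card_cls, Finset.card_empty, zero_add]
    exact le_rfl
  · show (∅ : Finset (BV (S1 a m q z))).card + z ≤ (cls (S1 a m q z) 5).card
    rw [card_cls, Finset.card_empty, zero_add]
    exact le_rfl
  · show (cls (S1 a m q z) 1 ∪ cls (S1 a m q z) 4).card + z ≤ (cls (S1 a m q z) 0).card
    have h := Finset.card_union_le (cls (S1 a m q z) 1) (cls (S1 a m q z) 4)
    rw [card_cls, card_cls] at h
    rw [card_cls]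
    have e1 : S1 a m q z 1 = m := rfl
    have e2 : S1 a m q z 4 = z := rfl
    have e3 : S1 a m q z 0 = a := rfl
    omega
  · show (cls (S1 a m q z) 1 ∪ cls (S1 a m q z) 5).card + z ≤ (cls (S1 a m q z) 3).card
    have h := Finset.card_union_le (cls (S1 a m q z) 1) (cls (S1 a m q z) 5)
    rw [card_cls, card_cls] at h
    rw [card_cls]
    have e1 : S1 a m q z 1 = m := rfl
    have e2 : S1 a m q z 5 = z := rfl
    have e3 : S1 a m q z 3 = a := rfl
    omega

/-- First construction. -/
theorem not_P_one (x y : ℝ) (hx : 0 ≤ x) (hy : 0 ≤ y) (h : y < 1 - 3 / 2 * x) : ¬ P x y := by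
  intro hP
  obtain ⟨γ, hγ⟩ : ∃ γ, γ = 1 - 3 / 2 * x - y := ⟨_, rfl⟩
  have hγ0 : 0 < γ := by linarith
  obtain ⟨ε, hε⟩ : ∃ ε, ε = γ / 40 := ⟨_, rfl⟩
  have hε0 : 0 < ε := by rw [hε]; positivity
  obtain ⟨n₀, hn₀⟩ := hP (ε / 2) (by positivity)
  obtain ⟨k, hk1, hk2⟩ : ∃ k : ℕ, n₀ ≤ k ∧ 100 / ε < (k : ℝ) := by
    obtain ⟨k, hk⟩ := exists_nat_gt (100 / ε)
    refine ⟨max n₀ k, le_max_left _ _, lt_of_lt_of_le hk ?_⟩
    exact_mod_cast le_max_right n₀ k
  have hkε : 100 < ε * k := by
    rw [div_lt_iff₀ hε0] at hk2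
    linarith
  have hk0 : (0 : ℝ) ≤ (k : ℝ) := by positivity
  obtain ⟨z, hz⟩ : ∃ z : ℕ, z = ⌈ε * k⌉₊ := ⟨_, rfl⟩
  obtain ⟨m, hm⟩ : ∃ m : ℕ, m = ⌈x / 2 * k⌉₊ := ⟨_, rfl⟩
  have hz1 : ε * k ≤ z := by rw [hz]; exact Nat.le_ceil _
  have hz2 : (z : ℝ) < ε * k + 1 := by rw [hz]; exact Nat.ceil_lt_add_one (by positivity)
  have hm1 : x / 2 * k ≤ m := by rw [hm]; exact Nat.le_ceil _
  have hm2 : (m : ℝ) < x / 2 * k + 1 := by rw [hm]; exact Nat.ceil_lt_add_one (by positivity)
  have hγk : γ * k = 40 * (ε * k) := by rw [hε]; ring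
  have hxk : 3 / 2 * x * k = k - y * k - γ * k := by rw [hγ]; ring
  have hyk : 0 ≤ y * k := by positivity
  have hsize : 3 * m + 8 * z ≤ k := by
    have : (3 * m + 8 * z : ℝ) ≤ k := by nlinarith
    exact_mod_cast this
  obtain ⟨q, hq⟩ : ∃ q, q + (3 * m + 8 * z) = k := ⟨k - (3 * m + 8 * z), by omega⟩
  have hqR : (q : ℝ) = k - 3 * m - 8 * z := by
    have : (q : ℝ) + (3 * m + 8 * z) = k := by exact_mod_cast hq
    linarith
  have hcard : Fintype.card (BV (S1 (m + 3 * z) m q z)) = k := by
    rw [card_BV]
    simp [S1, Fin.sum_univ_succ]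
    omega
  have hsum : ∑ l, S1 (m + 3 * z) m q z l = k := by rw [← card_BV]; exact hcard
  have hposa : PosaCondition (blowG M1 M1_symm (S1 (m + 3 * z) m q z)) x y (ε / 2) := by
    apply blow_posa M1 M1_symm _ x y (ε / 2) ![2, 1, 2, 2, 0, 0]
    intro i _
    rw [hsum]
    fin_cases i
    · left
      simp [S1, M1, Fin.sum_univ_succ]
      nlinarith
    · right
      simp [S1, M1, Fin.sum_univ_succ]
      nlinarith
    · left
      simp [S1, M1, Fin.sum_univ_succ]
      nlinarith
    · left
      simp [S1, M1, Fin.sum_univ_succ]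
      nlinarith
    · right
      simp [S1, M1, Fin.sum_univ_succ]
      nlinarith
    · right
      simp [S1, M1, Fin.sum_univ_succ]
      nlinarith
  obtain ⟨T₁, T₂, T₃, h₁, h₂, h₃, d₁₂, d₁₃, d₂₃, hcov⟩ :=
    hn₀ _ (blowG M1 M1_symm (S1 (m + 3 * z) m q z)) (blowC M1 M1_symm (S1 (m + 3 * z) m q z))
      (by rw [hcard]; exact hk1) hposa
  have hnc := one_not_covered (m + 3 * z) m q z (by omega) T₁ T₂ T₃ h₁ h₂ h₃ d₁₂ d₁₃ d₂₃
  rw [hcard] at hnc hcov
  have hnc' : (T₁.card : ℝ) + T₂.card + T₃.card + z ≤ k + 6 := by exact_mod_cast hnc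
  nlinarith

end Pool.Agent.MP_acdf0e_co
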