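import Pool.Agent.Lib.MP_acdf0e_co.One

/-!
# Second construction: four small pairwise unrelated cells

The classes are cells of a `4 × 4` grid with red rows and blue columns; two vertices are adjacent
iff they are in the same row (red) or, otherwise, in the same column (blue).  The four diagonal
cells are small.  Every monochromatic cycle meets at most one diagonal cell.
-/

namespace Pool.Agent.MP_acdf0e_co

open Finset

/-- rows -/
def R2 : Fin 9 → Fin 4 := ![0, 1, 2, 3, 2, 3, 0, 2, 3]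

/-- columns -/
def B2 : Fin 9 → Fin 4 := ![0, 1, 2, 3, 0, 0, 1, 1, 1]

/-- The colour matrix of the second construction. -/
def M2 (k l : Fin 9) : Option Bool :=
  if R2 k = R2 l then some true else if B2 k = B2 l then some false else none

theorem M2_symm : ∀ k l, M2 k l = M2 l k := by decide

theorem R2_edge : ∀ k l, M2 k l = some true → R2 k = R2 l := by decide

theorem B2_edge : ∀ k l, M2 k l = some false → B2 k = B2 l := by decide

/-- the diagonal cells -/
def X2 (s : Fin 9 → ℕ) : Fin 4 → Finset (BV s) := ![cls s 0, cls s 1, cls s 2, cls s 3]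

theorem two_obstruction (s : Fin 9 → ℕ) (S : Finset (BV s))
    (hS : IsMonoCycle (blowG M2 M2_symm s) (blowC M2 M2_symm s) S) :
    ∃ j : Fin 4, ∀ i, i ≠ j →
      (S ∩ X2 s i).card ≤ (S ∩ ((fun _ => ∅ : Fin 4 → Finset (BV s)) i)).card + 2 := by
  rcases hS with ⟨v, hv⟩ | ⟨u, v, _, huv⟩ | ⟨b, v, p, hp, hpS⟩
  · refine ⟨0, fun i _ => ?_⟩
    have h1 : (S ∩ X2 s i).card ≤ S.card := Finset.card_le_card Finset.inter_subset_left
    have h2 : S ⊆ {v} := fun w hw => by rw [Finset.mem_singleton]; exact (hv w).1 hw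
    have h3 := Finset.card_le_card h2
    rw [Finset.card_singleton] at h3
    omega
  · refine ⟨0, fun i _ => ?_⟩
    have h1 : (S ∩ X2 s i).card ≤ S.card := Finset.card_le_card Finset.inter_subset_left
    have h2 : S ⊆ {u, v} := fun w hw => by
      rw [Finset.mem_insert, Finset.mem_singleton]; exact (huv w).1 hw
    have h3 := Finset.card_le_card h2
    have h4 := Finset.card_le_two (a := u) (b := v)
    omega
  · cases b with
    | true =>
      have hc : ∀ w ∈ S, R2 w.1 = R2 v.1 := by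
        intro w hw
        exact walk_const (fun w : BV s => R2 w.1)
          (fun a b hab => R2_edge _ _ (blow_class M2 M2_symm s true a b hab).2) p w
          ((hpS w).1 hw)
      generalize R2 v.1 = r at hc
      refine ⟨r, fun i hi => ?_⟩
      have h : (S ∩ X2 s i).card = 0 := by
        fin_cases i
        · exact inter_cls_empty R2 S r hc 0 hi
        · exact inter_cls_empty R2 S r hc 1 hi
        · exact inter_cls_empty R2 S r hc 2 hi
        · exact inter_cls_empty R2 S r hc 3 hi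
      omega
    | false =>
      have hc : ∀ w ∈ S, B2 w.1 = B2 v.1 := by
        intro w hw
        exact walk_const (fun w : BV s => B2 w.1)
          (fun a b hab => B2_edge _ _ (blow_class M2 M2_symm s false a b hab).2) p w
          ((hpS w).1 hw)
      generalize B2 v.1 = r at hc
      refine ⟨r, fun i hi => ?_⟩
      have h : (S ∩ X2 s i).card = 0 := by
        fin_cases i
        · exact inter_cls_empty B2 S r hc 0 hi
        · exact inter_cls_empty B2 S r hc 1 hi
        · exact inter_cls_empty B2 S r hc 2 hi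
        · exact inter_cls_empty B2 S r hc 3 hi
      omega

/-- sizes -/
def S2 (z s t u v : ℕ) : Fin 9 → ℕ := ![z, z, z, z, s, s, t, u, v]

theorem two_not_covered (z s t u v : ℕ)
    (S₁ S₂ S₃ : Finset (BV (S2 z s t u v)))
    (h₁ : IsMonoCycle (blowG M2 M2_symm (S2 z s t u v)) (blowC M2 M2_symm (S2 z s t u v)) S₁)
    (h₂ : IsMonoCycle (blowG M2 M2_symm (S2 z s t u v)) (blowC M2 M2_symm (S2 z s t u v)) S₂)
    (h₃ : IsMonoCycle (blowG M2 M2_symm (S2 z s t u v)) (blowC M2 M2_symm (S2 z s t u v)) S₃)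
    (d₁₂ : Disjoint S₁ S₂) (d₁₃ : Disjoint S₁ S₃) (d₂₃ : Disjoint S₂ S₃) :
    S₁.card + S₂.card + S₃.card + z ≤ Fintype.card (BV (S2 z s t u v)) + 6 := by
  refine not_covered _ _ (X2 _) (fun _ => ∅) z ?_ (two_obstruction _) S₁ S₂ S₃ h₁ h₂ h₃
    d₁₂ d₁₃ d₂₃
  intro i
  rw [Finset.card_empty, zero_add]
  fin_cases i
  · show z ≤ (cls (S2 z s t u v) 0).card
    rw [card_cls]; exact le_rfl
  · show z ≤ (cls (S2 z s t u v) 1).card
    rw [card_cls]; exact le_rfl
  · show z ≤ (cls (S2 z s t u v) 2).card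
    rw [card_cls]; exact le_rfl
  · show z ≤ (cls (S2 z s t u v) 3).card
    rw [card_cls]; exact le_rfl

/-- Second construction. -/
theorem not_P_two (x y σ γ : ℝ) (hσ : 0 ≤ σ) (hx : 2 * σ ≤ x) (hy : 0 ≤ y)
    (hγ0 : 0 < γ) (h1 : x + y + σ + γ ≤ 1) (h2 : 3 * x - 2 * σ + γ ≤ 1)
    (h4 : (3 * x - 1 + γ ≤ σ ∧ 2 * σ + 2 * x + γ ≤ 1) ∨
      (4 * x - 1 + γ ≤ 3 * σ ∧ 2 * x + σ + γ ≤ 1)) : ¬ P x y := by
  intro hP
  have hx0 : 0 ≤ x := by linarith
  obtain ⟨ε, hε⟩ : ∃ ε, ε = γ / 40 := ⟨_, rfl⟩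
  have hε0 : 0 < ε := by rw [hε]; positivity
  obtain ⟨n₀, hn₀⟩ := hP (ε / 2) (by positivity)
  obtain ⟨k, hk1, hk2⟩ : ∃ k : ℕ, n₀ ≤ k ∧ 100 / ε < (k : ℝ) := by
    obtain ⟨k, hk⟩ := exists_nat_gt (100 / ε)
    refine ⟨max n₀ k, le_max_left _ _, lt_of_lt_of_le hk ?_⟩
    exact_mod_cast le_max_right n₀ k
  have hkε : 100 < ε * k := by
    rw [div_lt_iff₀ hε0] at hk2
    linarith
  have hk0 : (0 : ℝ) ≤ (k : ℝ) := by positivity
  obtain ⟨z, hz⟩ : ∃ z : ℕ, z = ⌈ε * k⌉₊ := ⟨_, rfl⟩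
  obtain ⟨s, hs⟩ : ∃ s : ℕ, s = ⌈σ * k⌉₊ := ⟨_, rfl⟩
  obtain ⟨t', ht'⟩ : ∃ t : ℕ, t = ⌈(x - 2 * σ) * k⌉₊ := ⟨_, rfl⟩
  obtain ⟨u', hu'⟩ : ∃ u : ℕ, u = ⌈(x - σ) * k⌉₊ := ⟨_, rfl⟩
  have hz1 : ε * k ≤ z := by rw [hz]; exact Nat.le_ceil _
  have hz2 : (z : ℝ) < ε * k + 1 := by rw [hz]; exact Nat.ceil_lt_add_one (by positivity)
  have hs1 : σ * k ≤ s := by rw [hs]; exact Nat.le_ceil _
  have hs2 : (s : ℝ) < σ * k + 1 := by rw [hs]; exact Nat.ceil_lt_add_one (by positivity)
  have ht1 : (x - 2 * σ) * k ≤ t' := by rw [ht']; exact Nat.le_ceil _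
  have ht2 : (t' : ℝ) < (x - 2 * σ) * k + 1 := by
    rw [ht']; exact Nat.ceil_lt_add_one (mul_nonneg (by linarith) hk0)
  have hu1 : (x - σ) * k ≤ u' := by rw [hu']; exact Nat.le_ceil _
  have hu2 : (u' : ℝ) < (x - σ) * k + 1 := by
    rw [hu']; exact Nat.ceil_lt_add_one (mul_nonneg (by linarith) hk0)
  -- linearise: set the products with `k`
  obtain ⟨a, ha⟩ : ∃ a, a = ε * k := ⟨_, rfl⟩
  obtain ⟨b, hb⟩ : ∃ b, b = σ * k := ⟨_, rfl⟩
  obtain ⟨c, hc⟩ : ∃ c, c = x * k := ⟨_, rfl⟩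
  obtain ⟨d, hd⟩ : ∃ d, d = y * k := ⟨_, rfl⟩
  have eγ : γ * k = 40 * a := by rw [ha, hε]; ring
  have e1 : (x - 2 * σ) * k = c - 2 * b := by rw [hb, hc]; ring
  have e2 : (x - σ) * k = c - b := by rw [hb, hc]; ring
  have e3 : (x + ε / 2) * k = c + a / 2 := by rw [ha, hc]; ring
  have e4 : (x + y + ε / 2) * k = c + d + a / 2 := by rw [ha, hc, hd]; ring
  have g1 : c + d + b + 40 * a ≤ k := by
    have := mul_le_mul_of_nonneg_right h1 hk0
    nlinarith
  have g2 : 3 * c - 2 * b + 40 * a ≤ k := by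
    have := mul_le_mul_of_nonneg_right h2 hk0
    nlinarith
  have gx : 2 * b ≤ c := by
    have := mul_le_mul_of_nonneg_right hx hk0
    nlinarith
  have gb : 0 ≤ b := by rw [hb]; positivity
  have gd : 0 ≤ d := by rw [hd]; positivity
  have g4 : (3 * c - k + 40 * a ≤ b ∧ 2 * b + 2 * c + 40 * a ≤ k) ∨
      (4 * c - k + 40 * a ≤ 3 * b ∧ 2 * c + b + 40 * a ≤ k) := by
    rcases h4 with ⟨h, h'⟩ | ⟨h, h'⟩
    · left
      have q1 := mul_le_mul_of_nonneg_right h hk0
      have q2 := mul_le_mul_of_nonneg_right h' hk0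
      constructor <;> nlinarith
    · right
      have q1 := mul_le_mul_of_nonneg_right h hk0
      have q2 := mul_le_mul_of_nonneg_right h' hk0
      constructor <;> nlinarith
  rw [e1] at ht1 ht2
  rw [e2] at hu1 hu2
  rw [← ha] at hz1 hz2 hkε
  rw [← hb] at hs1 hs2
  have g3 : c + 2 * b + 40 * a ≤ k := by
    rcases g4 with ⟨h, h'⟩ | ⟨h, h'⟩ <;> linarith
  have hsize : 4 * z + 2 * s + (t' + 5 * z) + (u' + 5 * z) ≤ k := by
    have : (4 * z + 2 * s + (t' + 5 * z) + (u' + 5 * z) : ℝ) ≤ k := by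
      rcases g4 with ⟨h, h'⟩ | ⟨h, h'⟩ <;> linarith
    exact_mod_cast this
  obtain ⟨v, hv⟩ : ∃ v, v + (4 * z + 2 * s + (t' + 5 * z) + (u' + 5 * z)) = k :=
    ⟨k - (4 * z + 2 * s + (t' + 5 * z) + (u' + 5 * z)), by omega⟩
  have hvR : (v : ℝ) = k - 14 * z - 2 * s - t' - u' := by
    have : (v : ℝ) + (4 * z + 2 * s + (t' + 5 * z) + (u' + 5 * z)) = k := by exact_mod_cast hv
    linarith
  have hcard : Fintype.card (BV (S2 z s (t' + 5 * z) (u' + 5 * z) v)) = k := by
    rw [card_BV]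
    simp [S2, Fin.sum_univ_succ]
    omega
  have hsum : ∑ l, S2 z s (t' + 5 * z) (u' + 5 * z) v l = k := by rw [← card_BV]; exact hcard
  have hposa : PosaCondition (blowG M2 M2_symm (S2 z s (t' + 5 * z) (u' + 5 * z) v)) x y
      (ε / 2) := by
    rcases g4 with ⟨h, h'⟩ | ⟨h, h'⟩
    · apply blow_posa M2 M2_symm _ x y (ε / 2) ![0, 0, 0, 0, 1, 2, 3, 4, 4]
      intro i _
      rw [hsum, e3, e4]
      fin_cases i
      · right
        simp [S2, M2, R2, B2, Fin.sum_univ_succ]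
        linarith
      · right
        simp [S2, M2, R2, B2, Fin.sum_univ_succ]
        linarith
      · right
        simp [S2, M2, R2, B2, Fin.sum_univ_succ]
        linarith
      · right
        simp [S2, M2, R2, B2, Fin.sum_univ_succ]
        linarith
      · right
        simp [S2, M2, R2, B2, Fin.sum_univ_succ]
        linarith
      · right
        simp [S2, M2, R2, B2, Fin.sum_univ_succ]
        linarith
      · right
        simp [S2, M2, R2, B2, Fin.sum_univ_succ]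
        linarith
      · left
        simp [S2, M2, R2, B2, Fin.sum_univ_succ]
        linarith
      · left
        simp [S2, M2, R2, B2, Fin.sum_univ_succ]
        linarith
    · apply blow_posa M2 M2_symm _ x y (ε / 2) ![0, 0, 0, 0, 1, 3, 2, 4, 4]
      intro i _
      rw [hsum, e3, e4]
      fin_cases i
      · right
        simp [S2, M2, R2, B2, Fin.sum_univ_succ]
        linarith
      · right
        simp [S2, M2, R2, B2, Fin.sum_univ_succ]
        linarith
      · right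
        simp [S2, M2, R2, B2, Fin.sum_univ_succ]
        linarith
      · right
        simp [S2, M2, R2, B2, Fin.sum_univ_succ]
        linarith
      · right
        simp [S2, M2, R2, B2, Fin.sum_univ_succ]
        linarith
      · right
        simp [S2, M2, R2, B2, Fin.sum_univ_succ]
        linarith
      · right
        simp [S2, M2, R2, B2, Fin.sum_univ_succ]
        linarith
      · left
        simp [S2, M2, R2, B2, Fin.sum_univ_succ]
        linarith
      · left
        simp [S2, M2, R2, B2, Fin.sum_univ_succ]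
        linarith
  obtain ⟨T₁, T₂, T₃, h₁, h₂, h₃, d₁₂, d₁₃, d₂₃, hcov⟩ :=
    hn₀ _ (blowG M2 M2_symm (S2 z s (t' + 5 * z) (u' + 5 * z) v))
      (blowC M2 M2_symm (S2 z s (t' + 5 * z) (u' + 5 * z) v)) (by rw [hcard]; exact hk1) hposa
  have hnc := two_not_covered z s (t' + 5 * z) (u' + 5 * z) v T₁ T₂ T₃ h₁ h₂ h₃ d₁₂ d₁₃ d₂₃
  rw [hcard] at hnc hcov
  have hnc' : (T₁.card : ℝ) + T₂.card + T₃.card + z ≤ k + 6 := by exact_mod_cast hnc
  have : (1 - ε / 2) * (k : ℝ) = k - a / 2 := by rw [ha]; ring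
  linarith

end Pool.Agent.MP_acdf0e_co
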